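import Mathlib

/-!
# Choice of the parameters
-/

set_option autoImplicit false

namespace Pool.Agent.D0H86.MG

/-- choice of the number of powers and of the weight of the point `1` -/
lemma choice {d s l g : ℝ} (hd : 1 ≤ d) (hs : 1 ≤ s) (hl : 0 < l) (hg : 0 ≤ g)
    (hlarge : l ≤ d * Real.log 2 + s * g)
    (H : ∀ k : ℕ, 1 ≤ k → ∀ a t : ℝ, 0 ≤ a → 0 ≤ t → t < 1 →
      2 * a * (k * l) ≤ 2 * (a + k * d) * (k ^ 2 * (s * g)) +
        (a + k * d) ^ 2 * Real.log (2 / (1 + t)) + (a ^ 2 + k * (s * d)) * Real.log (1 / (1 - t))) :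
    min (l / s) (min (l ^ 2 / (d * s * Real.log (2 * (d * s) * (1 + 1 / l))))
      (l ^ 4 / ((d * s) ^ 2 * Real.log (2 * (d * s) * (1 + 1 / l)) ^ 3))) ≤ 216000 * g := by
  have hlog2 : 0.6931471803 < Real.log 2 := Real.log_two_gt_d9
  have hlog2' : Real.log 2 < 0.6931471808 := Real.log_two_lt_d9
  have hd0 : 0 < d := by linarith
  have hs0 : 0 < s := by linarith
  have hli : 0 < 1 / l := by positivity
  set u : ℝ := 1 + 1 / l with hu
  have hu1 : 1 < u := by linarith
  set q : ℝ := d * s * u with hq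
  have hds : 1 ≤ d * s := by nlinarith
  have hq1 : 1 ≤ q := by rw [hq]; nlinarith
  have hq0 : 0 < q := by linarith
  set L : ℝ := Real.log (2 * (d * s) * u) with hL
  have hLq : L = Real.log (2 * q) := by rw [hL, hq]; congr 1; ring
  have hL2 : Real.log 2 ≤ L := by
    rw [hLq]
    exact Real.log_le_log two_pos (by linarith)
  have hL0 : 0 < L := by linarith
  set E : ℝ := 15 * L with hE
  have hE10 : 10 ≤ E := by rw [hE]; linarith
  have hE0 : 0 < E := by linarith
  -- the trivial case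
  by_cases hbig : 2 * d * Real.log 2 ≤ l
  · refine (min_le_left _ _).trans ?_
    rw [div_le_iff₀ hs0]
    nlinarith [mul_nonneg hg hs0.le]
  push Not at hbig
  set x : ℝ := 4 * (d * s) * E ^ 2 / l ^ 2 with hx
  have hx0 : 0 < x := by positivity
  have hxl : x * l ^ 2 = 4 * (d * s) * E ^ 2 := by rw [hx]; field_simp
  set k : ℕ := ⌈x⌉₊ with hk
  have hk1 : 1 ≤ k := Nat.one_le_iff_ne_zero.mpr (Nat.ceil_pos.mpr hx0).ne'
  have hkx : x ≤ k := Nat.le_ceil x
  have hkx1 : (k:ℝ) < x + 1 := Nat.ceil_lt_add_one hx0.le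
  have hk1' : (1:ℝ) ≤ k := by exact_mod_cast hk1
  have hk0 : (0:ℝ) < k := by linarith
  -- the logarithm
  set Λ : ℝ := Real.log (4 * (k * d)) with hΛ
  have hkd : 1 ≤ k * d := by nlinarith
  have hΛ2 : 2 * Real.log 2 ≤ Λ := by
    have h1 : Real.log 4 = 2 * Real.log 2 := by
      rw [show (4:ℝ) = 2 ^ 2 by norm_num, Real.log_pow]; push_cast; ring
    rw [← h1, hΛ]
    exact Real.log_le_log (by norm_num) (by linarith)
  have hΛ1 : 1 ≤ Λ := by linarith
  have hΛ0 : 0 < Λ := by linarith
  have hΛE : Λ ≤ E := by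
    have h1 : 4 * (k * d) ≤ (2 * q) ^ 15 := by
      have h2 : d * x ≤ 4 * q ^ 2 * E ^ 2 := by
        have h3 : d * x = 4 * (d ^ 2 * s * (1 / l) ^ 2) * E ^ 2 := by
          rw [hx]; field_simp
        rw [h3]
        have h4 : d ^ 2 * s * (1 / l) ^ 2 ≤ q ^ 2 := by
          have h5 : (1 / l) ^ 2 ≤ u ^ 2 := pow_le_pow_left₀ hli.le (by linarith) 2
          have h6 : d ^ 2 * s ≤ (d * s) ^ 2 := by
            have : (d * s) ^ 2 = d ^ 2 * s * s := by ring
            rw [this]
            have : 0 < d ^ 2 * s := by positivity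
            nlinarith
          calc d ^ 2 * s * (1 / l) ^ 2 ≤ (d * s) ^ 2 * u ^ 2 :=
                mul_le_mul h6 h5 (by positivity) (by positivity)
            _ = q ^ 2 := by rw [hq]; ring
        have h7 := mul_le_mul_of_nonneg_right h4 (by positivity : 0 ≤ 4 * E ^ 2)
        linarith
      have hdq : d ≤ q := by
        rw [hq]
        have : d * 1 ≤ d * s * u := by
          have h3 : d * 1 ≤ d * s := mul_le_mul_of_nonneg_left hs hd0.le
          have h4 : d * s * 1 ≤ d * s * u := mul_le_mul_of_nonneg_left hu1.le (by positivity)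
          linarith
        linarith
      have hLq2 : L ≤ 2 * q := by
        rw [hLq]
        have := Real.log_le_sub_one_of_pos (show 0 < 2 * q by linarith)
        linarith
      have hE2 : E ^ 2 ≤ 900 * q ^ 2 := by
        have : E ≤ 30 * q := by rw [hE]; linarith
        have h3 := pow_le_pow_left₀ hE0.le this 2
        linarith [h3, (by ring : (30 * q) ^ 2 = 900 * q ^ 2)]
      have h8 : 4 * (k * d) ≤ 4 * (d * x) + 4 * d := by nlinarith
      have h9 : q ^ 2 * E ^ 2 ≤ 900 * q ^ 4 := by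
        have := mul_le_mul_of_nonneg_left hE2 (by positivity : 0 ≤ q ^ 2)
        linarith [this, (by ring : q ^ 2 * (900 * q ^ 2) = 900 * q ^ 4)]
      have h10 : q ≤ q ^ 4 := by
        have := pow_le_pow_right₀ hq1 (show 1 ≤ 4 by norm_num)
        linarith [this, pow_one q]
      have h11 : q ^ 4 ≤ q ^ 15 := pow_le_pow_right₀ hq1 (by norm_num)
      have h12 : (2 * q) ^ 15 = 32768 * q ^ 15 := by ring
      rw [h12]
      nlinarith
    calc Λ ≤ Real.log ((2 * q) ^ 15) := Real.log_le_log (by linarith) h1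
      _ = E := by rw [Real.log_pow, hE, hLq]; push_cast; ring
  -- the weight of the point `1`
  set a : ℝ := k * l / Λ with ha
  have ha0 : 0 ≤ a := by positivity
  have hakd : a ≤ k * d := by
    rw [ha, div_le_iff₀ hΛ0]
    have h1 : l ≤ d * Λ := by nlinarith
    calc k * l ≤ k * (d * Λ) := mul_le_mul_of_nonneg_left h1 hk0.le
      _ = k * d * Λ := by ring
  have haΛ : a * Λ = k * l := by rw [ha]; field_simp
  set t : ℝ := 1 - 1 / (4 * (k * d)) with ht
  have hti : 0 < 1 / (4 * (k * d)) := by positivity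
  have hti1 : 1 / (4 * (k * d)) ≤ 1 := by
    rw [div_le_one (by positivity)]
    linarith
  have ht0 : 0 ≤ t := by rw [ht]; linarith
  have ht1 : t < 1 := by rw [ht]; linarith
  have hHk := H k hk1 a t ha0 ht0 ht1
  have e1 : Real.log (1 / (1 - t)) = Λ := by
    rw [hΛ]
    congr 1
    rw [ht]
    field_simp
    ring
  have e2 : Real.log (2 / (1 + t)) ≤ 1 / (4 * (k * d)) := by
    have h3 : 0 < 2 / (1 + t) := by positivity
    have h4 := Real.log_le_sub_one_of_pos h3
    have h5 : 2 / (1 + t) - 1 ≤ 1 / (4 * (k * d)) := by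
      have h6 : 2 / (1 + t) - 1 = (1 - t) / (1 + t) := by
        field_simp
        ring
      rw [h6]
      have h7 : 1 - t = 1 / (4 * (k * d)) := by rw [ht]; ring
      rw [h7]
      exact div_le_self hti.le (by linarith)
    linarith
  have e3 : (a + k * d) ^ 2 * Real.log (2 / (1 + t)) ≤ k * d := by
    have h1 : (a + k * d) ^ 2 ≤ (2 * (k * d)) ^ 2 :=
      pow_le_pow_left₀ (by positivity) (by linarith) 2
    have h2 : (a + k * d) ^ 2 * Real.log (2 / (1 + t)) ≤ (a + k * d) ^ 2 * (1 / (4 * (k * d))) :=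
      mul_le_mul_of_nonneg_left e2 (by positivity)
    have h3 : (a + k * d) ^ 2 * (1 / (4 * (k * d))) ≤ (2 * (k * d)) ^ 2 * (1 / (4 * (k * d))) :=
      mul_le_mul_of_nonneg_right h1 hti.le
    have h4 : (2 * (k * d)) ^ 2 * (1 / (4 * (k * d))) = k * d := by field_simp; ring
    linarith
  have e4 : 2 * (a + k * d) * (k ^ 2 * (s * g)) ≤ 4 * (k * d) * (k ^ 2 * (s * g)) :=
    mul_le_mul_of_nonneg_right (by linarith) (by positivity)
  rw [e1] at hHk
  -- the inequality
  have h1 : a * (k * l) ≤ 4 * (k * d) * (k ^ 2 * (s * g)) + k * d + k * (s * d) * Λ := by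
    have h2 : a ^ 2 * Λ = a * (k * l) := by rw [sq, mul_assoc, haΛ]
    nlinarith
  have h2 : k * l ^ 2 ≤ 4 * k ^ 2 * (d * s) * g * E + 2 * (d * s) * E ^ 2 := by
    have h3 : a * (k * l) * Λ ≤
        (4 * (k * d) * (k ^ 2 * (s * g)) + k * d + k * (s * d) * Λ) * Λ :=
      mul_le_mul_of_nonneg_right h1 hΛ0.le
    have h4 : a * (k * l) * Λ = k * (k * l ^ 2) := by
      calc a * (k * l) * Λ = a * Λ * (k * l) := by ring
        _ = k * (k * l ^ 2) := by rw [haΛ]; ring
    rw [h4] at h3
    have h5 : (4 * (k * d) * (k ^ 2 * (s * g)) + k * d + k * (s * d) * Λ) * Λ ≤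
        k * (4 * k ^ 2 * (d * s) * g * E + 2 * (d * s) * E ^ 2) := by
      have h6 : d ≤ d * s * Λ := by
        have : d * 1 ≤ d * s := mul_le_mul_of_nonneg_left hs hd0.le
        nlinarith
      have h7 : (4 * (k * d) * (k ^ 2 * (s * g)) + k * d + k * (s * d) * Λ) * Λ ≤
          (4 * (k * d) * (k ^ 2 * (s * g)) + k * (d * s * Λ) + k * (s * d) * Λ) * Λ := by
        apply mul_le_mul_of_nonneg_right _ hΛ0.le
        have := mul_le_mul_of_nonneg_left h6 hk0.le
        linarith
      have h8 : (4 * (k * d) * (k ^ 2 * (s * g)) + k * (d * s * Λ) + k * (s * d) * Λ) * Λ =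
          k * (4 * k ^ 2 * (d * s) * g * Λ + 2 * (d * s) * Λ ^ 2) := by ring
      rw [h8] at h7
      refine h7.trans (mul_le_mul_of_nonneg_left ?_ hk0.le)
      have h9 : Λ ^ 2 ≤ E ^ 2 := pow_le_pow_left₀ hΛ0.le hΛE 2
      have h10 : 4 * k ^ 2 * (d * s) * g * Λ ≤ 4 * k ^ 2 * (d * s) * g * E :=
        mul_le_mul_of_nonneg_left hΛE (by positivity)
      have h11 : 2 * (d * s) * Λ ^ 2 ≤ 2 * (d * s) * E ^ 2 :=
        mul_le_mul_of_nonneg_left h9 (by positivity)
      linarith
    exact le_of_mul_le_mul_left (h3.trans h5) hk0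
  have h3 : 4 * (d * s) * E ^ 2 ≤ k * l ^ 2 := by
    rw [← hxl]; exact mul_le_mul_of_nonneg_right hkx (by positivity)
  have h4 : l ^ 2 ≤ 8 * k * (d * s) * g * E := by
    have h5 : k * l ^ 2 ≤ k * (8 * k * (d * s) * g * E) := by
      have : k * (8 * k * (d * s) * g * E) = 2 * (4 * (k:ℝ) ^ 2 * (d * s) * g * E) := by ring
      rw [this]
      linarith
    exact le_of_mul_le_mul_left h5 hk0
  rcases le_total x 1 with hx1 | hx1
  · refine (min_le_right _ _).trans ((min_le_left _ _).trans ?_)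
    rw [div_le_iff₀ (by positivity)]
    have hk2 : (k:ℝ) ≤ 2 := by linarith
    have h6 : 8 * k * (d * s) * g * E ≤ 8 * 2 * (d * s) * g * E := by
      apply mul_le_mul_of_nonneg_right _ hE0.le
      apply mul_le_mul_of_nonneg_right _ hg
      apply mul_le_mul_of_nonneg_right _ (by positivity)
      linarith
    have h7 : 8 * 2 * (d * s) * g * E = 240 * (g * (d * s * L)) := by rw [hE]; ring
    have h8 : 0 ≤ g * (d * s * L) := by positivity
    linarith
  · refine (min_le_right _ _).trans ((min_le_right _ _).trans ?_)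
    rw [div_le_iff₀ (by positivity)]
    have hk2 : (k:ℝ) ≤ 2 * x := by linarith
    have h6 : l ^ 2 ≤ 16 * x * (d * s) * g * E := by
      have : 8 * k * (d * s) * g * E ≤ 8 * (2 * x) * (d * s) * g * E := by
        apply mul_le_mul_of_nonneg_right _ hE0.le
        apply mul_le_mul_of_nonneg_right _ hg
        apply mul_le_mul_of_nonneg_right _ (by positivity)
        linarith
      linarith
    have h7 := mul_le_mul_of_nonneg_right h6 (by positivity : 0 ≤ l ^ 2)
    have h8 : 16 * x * (d * s) * g * E * l ^ 2 = 16 * (d * s) * g * E * (x * l ^ 2) := by ring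
    rw [h8, hxl] at h7
    have h9 : 16 * (d * s) * g * E * (4 * (d * s) * E ^ 2) = 216000 * g * ((d * s) ^ 2 * L ^ 3) := by
      rw [hE]; ring
    rw [h9] at h7
    have h10 : l ^ 2 * l ^ 2 = l ^ 4 := by ring
    rw [h10] at h7
    exact h7

end Pool.Agent.D0H86.MG
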