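import Pool.Agent.D0H86.MG.Gap
import Pool.Agent.H225R3.Marg10

/-!
# Reduction modulo prime ideals
-/

set_option autoImplicit false

open Polynomial Module NumberField IntermediateField

namespace Pool.Agent.D0H86.MG

open Pool.Agent.H225R3.Marg

/-- if all eigenvalues are roots of unity of order dividing `N'` then the `N'`-th power is
unipotent -/
theorem nil_of_roots {R E : Type*} [CommRing R] [Field E] [IsAlgClosed E] (f : R →+* E)
    (hf : Function.Injective f) {n : ℕ} (A : Matrix (Fin n) (Fin n) R) (N' : ℕ) (hpos : 0 < N')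
    (h : ∀ l : E, (A.charpoly.map f).IsRoot l → l ^ N' = 1) : (A ^ N' - 1) ^ n = 0 := by
  classical
  set A' : Matrix (Fin n) (Fin n) E := f.mapMatrix A with hA'
  have hchar : A'.charpoly = A.charpoly.map f := by rw [← Matrix.charpoly_map]; rfl
  have hroots : ∀ b : E, (A' ^ N' - 1).charpoly.IsRoot b → b = 0 := by
    intro b hb
    rw [← Matrix.mem_spectrum_iff_isRoot_charpoly] at hb
    have h1 : A' ^ N' - 1 = aeval A' (X ^ N' - 1 : E[X]) := by simp
    have hdeg : 0 < (X ^ N' - 1 : E[X]).degree := by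
      rw [show (1 : E[X]) = Polynomial.C 1 from C_1.symm, degree_X_pow_sub_C hpos]
      exact_mod_cast hpos
    rw [h1, spectrum.map_polynomial_aeval_of_degree_pos _ _ hdeg] at hb
    obtain ⟨l, hl, rfl⟩ := hb
    have hl' : (A.charpoly.map f).IsRoot l := by
      rw [← hchar]; exact Matrix.mem_spectrum_iff_isRoot_charpoly.mp hl
    simp [h l hl']
  have hchar0 : (A' ^ N' - 1).charpoly = X ^ n := by
    have hsplit := IsAlgClosed.splits (A' ^ N' - 1).charpoly
    have hmon := (A' ^ N' - 1).charpoly_monic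
    have h1 := hsplit.eq_prod_roots_of_monic hmon
    have h2 : (A' ^ N' - 1).charpoly.roots = Multiset.replicate n 0 := by
      rw [Multiset.eq_replicate]
      constructor
      · rw [splits_iff_card_roots.mp hsplit, Matrix.charpoly_natDegree_eq_dim, Fintype.card_fin]
      · intro b hb
        exact hroots b (mem_roots'.mp hb).2
    rw [h1, h2, Multiset.map_replicate, Multiset.prod_replicate, C_0, sub_zero]
  have h3 : (A' ^ N' - 1) ^ n = 0 := by
    have h7 := Matrix.aeval_self_charpoly (A' ^ N' - 1)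
    rw [hchar0] at h7
    simpa using h7
  have h4 : f.mapMatrix ((A ^ N' - 1) ^ n) = 0 := by
    rw [map_pow, map_sub, map_pow, map_one]
    exact h3
  ext i j
  have h5 : f (((A ^ N' - 1) ^ n) i j) = 0 := congrFun (congrFun h4 i) j
  exact hf (by rw [h5, Matrix.zero_apply, map_zero])

/-- powers of unit matrices over finite fields -/
theorem unipotent_pow {F : Type*} [Field F] [Finite F] {n : ℕ} (A : Matrix (Fin n) (Fin n) F)
    (hA : IsUnit A) (e : ℕ) (he : 0 < e)
    (h : ∀ i : ℕ, 1 ≤ i → i ≤ n → Nat.card F ^ i - 1 ∣ e) : (A ^ e - 1) ^ n = 0 := by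
  classical
  refine nil_of_roots (algebraMap F (AlgebraicClosure F)) (algebraMap F _).injective A e he ?_
  intro l hl
  have hlint : IsIntegral F l := Algebra.IsIntegral.isIntegral l
  have hspec : l ∈ spectrum (AlgebraicClosure F)
      ((algebraMap F (AlgebraicClosure F)).mapMatrix A) := by
    rw [Matrix.mem_spectrum_iff_isRoot_charpoly]
    have : ((algebraMap F (AlgebraicClosure F)).mapMatrix A).charpoly =
        A.charpoly.map (algebraMap F (AlgebraicClosure F)) := by rw [← Matrix.charpoly_map]; rfl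
    rw [this]
    exact hl
  have hl0 : l ≠ 0 := by
    rintro rfl
    exact (spectrum.zero_notMem_iff _).mpr
      (hA.map (algebraMap F (AlgebraicClosure F)).mapMatrix) hspec
  let E := IntermediateField.adjoin F {l}
  haveI : FiniteDimensional F E := IntermediateField.adjoin.finiteDimensional hlint
  haveI : Finite E := Module.finite_of_finite F
  letI : Fintype E := Fintype.ofFinite E
  let x : E := ⟨l, IntermediateField.mem_adjoin_simple_self F l⟩
  have hx0 : x ≠ 0 := by
    intro h
    exact hl0 (congrArg (algebraMap E (AlgebraicClosure F)) h)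
  have hdeg : finrank F E ≤ n := by
    have h1 : finrank F E = (minpoly F l).natDegree := IntermediateField.adjoin.finrank hlint
    rw [h1]
    have h3 : aeval l A.charpoly = 0 := by
      rw [IsRoot, eval_map] at hl
      exact hl
    refine (natDegree_le_of_dvd (minpoly.dvd F l h3) A.charpoly_monic.ne_zero).trans ?_
    rw [Matrix.charpoly_natDegree_eq_dim, Fintype.card_fin]
  have hcard : Nat.card E = Nat.card F ^ finrank F E := Module.natCard_eq_pow_finrank
  have h1 : x ^ (Fintype.card E - 1) = 1 := FiniteField.pow_card_sub_one_eq_one x hx0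
  rw [← Nat.card_eq_fintype_card, hcard] at h1
  obtain ⟨c, hc⟩ := h (finrank F E) finrank_pos hdeg
  have h2 : x ^ e = 1 := by rw [hc, pow_mul, h1, one_pow]
  have h3 := congrArg (algebraMap E (AlgebraicClosure F)) h2
  rw [map_pow, map_one] at h3
  exact h3

/-- the power of a unit matrix is unipotent modulo a maximal ideal -/
theorem unipotent_mod {R : Type*} [CommRing R] (P : Ideal R) [P.IsMaximal] [Finite (R ⧸ P)]
    {n : ℕ} (A : Matrix (Fin n) (Fin n) R) (hA : IsUnit A) (e : ℕ) (he : 0 < e)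
    (h : ∀ i : ℕ, 1 ≤ i → i ≤ n → Nat.card (R ⧸ P) ^ i - 1 ∣ e) (i j : Fin n) :
    ((A ^ e - 1) ^ n) i j ∈ P := by
  letI : Field (R ⧸ P) := Ideal.Quotient.field P
  set φ := (Ideal.Quotient.mk P).mapMatrix (m := Fin n) with hφ
  have h1 := unipotent_pow (φ A) (hA.map φ) e he h
  have h2 : φ ((A ^ e - 1) ^ n) = 0 := by
    rw [map_pow, map_sub, map_pow, map_one]
    exact h1
  have h3 : (Ideal.Quotient.mk P) (((A ^ e - 1) ^ n) i j) = 0 := congrFun (congrFun h2 i) j
  exact Ideal.Quotient.eq_zero_iff_mem.mp h3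

/-- the power of a unit matrix is unipotent modulo a product of distinct prime ideals -/
theorem unipotent_prod {k : Type} [Field k] [NumberField k] (P : Finset (Ideal (𝓞 k)))
    (hP : ∀ I ∈ P, I.IsPrime ∧ I ≠ ⊥) {n : ℕ} (A : Matrix (Fin n) (Fin n) (𝓞 k)) (hA : IsUnit A)
    (e : ℕ) (he : 0 < e)
    (h : ∀ I ∈ P, ∀ i : ℕ, 1 ≤ i → i ≤ n → Ideal.absNorm I ^ i - 1 ∣ e) (i j : Fin n) :
    ((A ^ e - 1) ^ n) i j ∈ ∏ I ∈ P, I := by
  rw [← Ideal.span_singleton_le_iff_mem, ← Ideal.dvd_iff_le]
  refine Finset.prod_dvd_of_coprime ?_ ?_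
  · intro I hI J hJ hne
    obtain ⟨hI1, hI2⟩ := hP I hI
    obtain ⟨hJ1, hJ2⟩ := hP J hJ
    have hIm : I.IsMaximal := hI1.isMaximal hI2
    have hJm : J.IsMaximal := hJ1.isMaximal hJ2
    exact Ideal.isCoprime_iff_sup_eq.mpr (hIm.coprime_of_ne hJm hne)
  · intro I hI
    obtain ⟨hI1, hI2⟩ := hP I hI
    rw [Ideal.dvd_iff_le, Ideal.span_singleton_le_iff_mem]
    have : Finite (𝓞 k ⧸ I) := Ideal.finiteQuotientOfFreeOfNeBot I hI2
    have : I.IsMaximal := hI1.isMaximal hI2
    refine unipotent_mod I A hA e he ?_ i j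
    intro i hi1 hi2
    have h1 := h I hI i hi1 hi2
    rw [Ideal.absNorm_apply, Submodule.cardQuot_apply] at h1
    exact h1

end Pool.Agent.D0H86.MG
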