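import Mathlib
import Pool.Agent.TH869.LS.F2
import Pool.Agent.H388SL.Energy

/-!
# A weighted potential inequality for the conjugates of the powers of an algebraic integer

For an algebraic integer `α` of a number field `K` of degree `D`, not `0` or a root of unity, the
conjugates of `α, α ^ 2, …, α ^ k` are taken with their multiplicities (the degrees
`[K : ℚ(α ^ m)]`), and the point `1` with weight `A`. The energy inequality gives an upper bound for
the logarithm of the norm of `1 - α` in terms of the height; the sum over the pairs of conjugates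
is dropped.
-/

set_option autoImplicit false

open Finset Polynomial Module

namespace Pool.Agent.D0H86.MG

open Pool.Agent.H388SL Pool.Agent.H389R3.LR Pool.Agent.TH869.LS

section

/-- the resultant of two integer polynomials with disjoint sets of simple zeros -/
theorem one_le_res_of (Q P : ℤ[X]) (Z W : Finset ℂ)
    (h : Q.map (Int.castRingHom ℂ) = ∏ z ∈ Z, (X - C z))
    (h' : P.map (Int.castRingHom ℂ) = ∏ w ∈ W, (X - C w)) (hd : Disjoint Z W) :
    1 ≤ ∏ z ∈ Z, ∏ w ∈ W, ‖z - w‖ := by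
  set φ := Int.castRingHom ℂ with hφ
  have hinj : Function.Injective φ := RingHom.injective_int φ
  set F := Q.map φ with hF
  have hmonic : F.Monic := by rw [h]; exact monic_prod_of_monic _ _ fun z _ => monic_X_sub_C z
  have hroots : F.roots = Z.val := by rw [h]; exact roots_prod_X_sub_C Z
  have h1 := resultant_map_map Q P Q.natDegree P.natDegree φ
  have h2 := resultant_eq_prod_eval F (P.map φ) P.natDegree natDegree_map_le (IsAlgClosed.splits F)
  rw [hroots, hmonic.leadingCoeff, one_pow, one_mul] at h2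
  have h3 : F.natDegree = Q.natDegree := natDegree_map_eq_of_injective hinj Q
  rw [h3] at h2
  rw [← hF, h2] at h1
  have h4 : (Z.val.map (P.map φ).eval).prod = ∏ z ∈ Z, ∏ w ∈ W, (z - w) := by
    change ∏ z ∈ Z, (P.map φ).eval z = _
    refine Finset.prod_congr rfl fun z hz => ?_
    rw [h', eval_prod]
    simp
  rw [h4] at h1
  set r : ℤ := resultant Q P Q.natDegree P.natDegree with hr
  have h5 : ∏ z ∈ Z, ∏ w ∈ W, ‖z - w‖ = |(r : ℝ)| := by
    have h6 := congrArg norm h1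
    rw [norm_prod] at h6
    simp_rw [norm_prod] at h6
    rw [h6]
    rw [hφ, eq_intCast, Complex.norm_intCast]
  have h6 : 0 < ∏ z ∈ Z, ∏ w ∈ W, ‖z - w‖ := by
    refine Finset.prod_pos fun z hz => Finset.prod_pos fun w hw => ?_
    rw [norm_pos_iff]
    refine sub_ne_zero.mpr fun hzw => ?_
    exact Finset.disjoint_left.mp hd hz (hzw ▸ hw)
  rw [h5] at h6 ⊢
  have h7 : r ≠ 0 := by
    rintro h8
    rw [h8] at h6
    simp at h6
  exact_mod_cast Int.one_le_abs h7

variable {K : Type*} [Field K] [NumberField K]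

/-- the mutual energy of two sets of conjugates is nonnegative -/
lemma cross_nonneg {β γ : K} (hβ : IsIntegral ℤ β) (hγ : IsIntegral ℤ γ) :
    0 ≤ ∑ z ∈ conjSet β, ∑ w ∈ conjSet γ, (if z = w then 0 else Real.log ‖z - w‖) := by
  classical
  by_cases hd : Disjoint (conjSet β) (conjSet γ)
  · have h1 := one_le_res_of _ _ _ _ (minpolyZ_map hβ) (minpolyZ_map hγ) hd
    have hne : ∀ z ∈ conjSet β, ∀ w ∈ conjSet γ, z ≠ w := by
      intro z hz w hw hzw
      exact Finset.disjoint_left.mp hd hz (hzw ▸ hw)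
    have hne' : ∀ z ∈ conjSet β, ∀ w ∈ conjSet γ, ‖z - w‖ ≠ 0 := by
      intro z hz w hw
      rw [norm_ne_zero_iff]
      exact sub_ne_zero.mpr (hne z hz w hw)
    have h2 : Real.log (∏ z ∈ conjSet β, ∏ w ∈ conjSet γ, ‖z - w‖) =
        ∑ z ∈ conjSet β, ∑ w ∈ conjSet γ, (if z = w then 0 else Real.log ‖z - w‖) := by
      rw [Real.log_prod fun z hz => Finset.prod_ne_zero_iff.mpr (hne' z hz)]
      refine Finset.sum_congr rfl fun z hz => ?_
      rw [Real.log_prod (hne' z hz)]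
      refine Finset.sum_congr rfl fun w hw => ?_
      rw [if_neg (hne z hz w hw)]
    rw [← h2]
    exact Real.log_nonneg h1
  · rw [Finset.not_disjoint_iff] at hd
    obtain ⟨z0, h1, h2⟩ := hd
    rw [← conjSet_eq_of_mem h1 h2]
    have hd := one_le_disc_of _ (conjSet β) (minpolyZ_map hβ)
    have h3 : Real.log (∏ z ∈ conjSet β, ∏ w ∈ (conjSet β).erase z, ‖z - w‖) =
        ∑ z ∈ conjSet β, ∑ w ∈ conjSet β, (if z = w then 0 else Real.log ‖z - w‖) := by
      have hne : ∀ z ∈ conjSet β, ∀ w ∈ (conjSet β).erase z, ‖z - w‖ ≠ 0 := by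
        intro z _ w hw
        rw [norm_ne_zero_iff]
        exact sub_ne_zero.mpr (Finset.ne_of_mem_erase hw).symm
      rw [Real.log_prod fun z hz => Finset.prod_ne_zero_iff.mpr (hne z hz)]
      refine Finset.sum_congr rfl fun z hz => ?_
      rw [Real.log_prod (hne z hz), ← Finset.add_sum_erase (conjSet β) _ hz, if_pos rfl, zero_add]
      refine Finset.sum_congr rfl fun w hw => ?_
      rw [if_neg (Finset.ne_of_mem_erase hw).symm]
    rw [← h3]
    exact Real.log_nonneg hd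

/-- sums over the conjugates with multiplicity -/
lemma sum_mult (β : K) (F : ℂ → ℝ) :
    ∑ σ : K →ₐ[ℚ] ℂ, F (σ β) =
      (finrank (IntermediateField.adjoin ℚ {β}) K : ℝ) * ∑ z ∈ conjSet β, F z := by
  classical
  rw [sum_embeddings' β F, nsmul_eq_mul]
  congr 1
  have h1 := sum_conjSet (CInj_gen β) F
  rw [← h1]
  congr 1
  ext z
  rw [mem_conjSet, mem_conjSet]
  constructor
  · rintro ⟨σ, rfl⟩
    letI : Algebra (IntermediateField.adjoin ℚ {β}) ℂ := σ.toRingHom.toAlgebra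
    haveI : IsScalarTower ℚ (IntermediateField.adjoin ℚ {β}) ℂ :=
      IsScalarTower.of_algebraMap_eq' (by ext; simp)
    let τ : K →ₐ[IntermediateField.adjoin ℚ {β}] ℂ := IsAlgClosed.lift
    refine ⟨τ.restrictScalars ℚ, ?_⟩
    exact τ.commutes (IntermediateField.AdjoinSimple.gen ℚ β)
  · rintro ⟨σ, rfl⟩
    exact ⟨σ.comp (IntermediateField.adjoin ℚ {β}).val, rfl⟩

lemma conjSet_one_eq : conjSet (1 : K) = {1} := by
  classical
  ext z
  rw [mem_conjSet, Finset.mem_singleton]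
  constructor
  · rintro ⟨σ, rfl⟩
    exact map_one σ
  · rintro rfl
    obtain ⟨σ⟩ : Nonempty (K →ₐ[ℚ] ℂ) := ⟨IsAlgClosed.lift⟩
    exact ⟨σ, map_one σ⟩

/-- the energy inequality with class constant weights -/
lemma energy_classes {α : K} (hα : IsIntegral ℤ α) (h0 : α ≠ 0)
    (hroot : ∀ n : ℕ, 0 < n → α ^ n ≠ 1) (k : ℕ) (w : ℕ → ℝ) (hw : ∀ m, 0 ≤ w m)
    {t : ℝ} (ht0 : 0 ≤ t) (ht1 : t < 1) :
    2 * w 0 * ∑ m ∈ Finset.Icc 1 k, w m * ∑ z ∈ conjSet (α ^ m), Real.log ‖1 - z‖ ≤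
      2 * (w 0 + ∑ m ∈ Finset.Icc 1 k, w m * (conjSet (α ^ m)).card) *
          (∑ m ∈ Finset.Icc 1 k, w m * ∑ z ∈ conjSet (α ^ m), Real.log (max 1 ‖z‖)) +
        (w 0 + ∑ m ∈ Finset.Icc 1 k, w m * (conjSet (α ^ m)).card) ^ 2 * Real.log (2 / (1 + t)) +
        (w 0 ^ 2 + ∑ m ∈ Finset.Icc 1 k, w m ^ 2 * (conjSet (α ^ m)).card) *
          Real.log (1 / (1 - t)) := by
  classical
  set s : Finset (Σ _ : ℕ, ℂ) := (Finset.range (k + 1)).sigma fun m => conjSet (α ^ m) with hs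
  have hmem : ∀ i ∈ s, i.2 ∈ conjSet (α ^ i.1) := fun i hi => (Finset.mem_sigma.mp hi).2
  have hdist : ∀ i ∈ s, ∀ j ∈ s, i ≠ j → i.2 ≠ j.2 := by
    intro i hi j hj hij h
    by_cases h1 : i.1 = j.1
    · apply hij
      obtain ⟨a, b⟩ := i
      obtain ⟨c, d⟩ := j
      simp only at h h1
      subst h h1
      rfl
    · have h2 := conj_disjoint hα h0 hroot h1
      exact Finset.disjoint_left.mp h2 (hmem i hi) (h ▸ hmem j hj)
  have hen := energy s (fun i => w i.1) (fun i _ => hw i.1) (fun i => i.2) hdist ht0 ht1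
  have hsum : ∀ F : ℕ → ℂ → ℝ, ∑ i ∈ s, F i.1 i.2 =
      F 0 1 + ∑ m ∈ Finset.Icc 1 k, ∑ z ∈ conjSet (α ^ m), F m z := by
    intro F
    rw [hs, Finset.sum_sigma, Finset.sum_range_eq_add_Ico _ (Nat.succ_pos k), pow_zero,
      conjSet_one_eq, Finset.sum_singleton]
    congr 1
  -- the energy
  have hE : 2 * w 0 * ∑ m ∈ Finset.Icc 1 k, w m * ∑ z ∈ conjSet (α ^ m), Real.log ‖1 - z‖ ≤
      ∑ i ∈ s, ∑ j ∈ s, (if i = j then 0 else w i.1 * w j.1 * Real.log ‖i.2 - j.2‖) := by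
    have e1 : ∑ i ∈ s, ∑ j ∈ s, (if i = j then 0 else w i.1 * w j.1 * Real.log ‖i.2 - j.2‖) =
        ∑ i ∈ s, ∑ j ∈ s, w i.1 * w j.1 * (if i.2 = j.2 then 0 else Real.log ‖i.2 - j.2‖) := by
      refine Finset.sum_congr rfl fun i hi => Finset.sum_congr rfl fun j hj => ?_
      by_cases hij : i = j
      · rw [if_pos hij, if_pos (by rw [hij]), mul_zero]
      · rw [if_neg hij, if_neg (hdist i hi j hj hij)]
    rw [e1]
    have e2 : ∀ i ∈ s, ∑ j ∈ s, w i.1 * w j.1 * (if i.2 = j.2 then 0 else Real.log ‖i.2 - j.2‖) =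
        w i.1 * (w 0 * (if i.2 = 1 then 0 else Real.log ‖i.2 - 1‖) +
          ∑ m ∈ Finset.Icc 1 k, w m * ∑ z ∈ conjSet (α ^ m),
            (if i.2 = z then 0 else Real.log ‖i.2 - z‖)) := by
      intro i hi
      rw [hsum (fun m z => w i.1 * w m * (if i.2 = z then 0 else Real.log ‖i.2 - z‖)), mul_add,
        Finset.mul_sum, mul_assoc]
      congr 1
      refine Finset.sum_congr rfl fun m _ => ?_
      rw [Finset.mul_sum, Finset.mul_sum]
      refine Finset.sum_congr rfl fun z _ => ?_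
      ring
    rw [Finset.sum_congr rfl e2]
    rw [hsum (fun m' z' => w m' * (w 0 * (if z' = 1 then 0 else Real.log ‖z' - 1‖) +
          ∑ m ∈ Finset.Icc 1 k, w m * ∑ z ∈ conjSet (α ^ m),
            (if z' = z then 0 else Real.log ‖z' - z‖)))]
    rw [if_pos rfl, mul_zero, zero_add]
    have h1ne : ∀ m ∈ Finset.Icc 1 k, ∀ z ∈ conjSet (α ^ m), (1 : ℂ) ≠ z := by
      intro m hm z hz h
      have h2 := conj_disjoint hα h0 hroot (m := 0) (l := m)
        (Nat.one_le_iff_ne_zero.mp (Finset.mem_Icc.mp hm).1).symm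
      rw [pow_zero, conjSet_one_eq, Finset.disjoint_singleton_left] at h2
      exact h2 (h ▸ hz)
    have e3 : w 0 * ∑ m ∈ Finset.Icc 1 k, w m * ∑ z ∈ conjSet (α ^ m),
          (if (1 : ℂ) = z then 0 else Real.log ‖1 - z‖) =
        w 0 * ∑ m ∈ Finset.Icc 1 k, w m * ∑ z ∈ conjSet (α ^ m), Real.log ‖1 - z‖ := by
      congr 1
      refine Finset.sum_congr rfl fun m hm => ?_
      congr 1
      refine Finset.sum_congr rfl fun z hz => ?_
      rw [if_neg (h1ne m hm z hz)]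
    rw [e3]
    have e4 : ∑ m ∈ Finset.Icc 1 k, ∑ z' ∈ conjSet (α ^ m),
          w m * (w 0 * (if z' = 1 then 0 else Real.log ‖z' - 1‖) +
            ∑ m' ∈ Finset.Icc 1 k, w m' * ∑ z ∈ conjSet (α ^ m'),
              (if z' = z then 0 else Real.log ‖z' - z‖)) =
        w 0 * ∑ m ∈ Finset.Icc 1 k, w m * ∑ z ∈ conjSet (α ^ m), Real.log ‖1 - z‖ +
        ∑ m ∈ Finset.Icc 1 k, ∑ m' ∈ Finset.Icc 1 k, w m * w m' *
          ∑ z' ∈ conjSet (α ^ m), ∑ z ∈ conjSet (α ^ m'),
              (if z' = z then 0 else Real.log ‖z' - z‖) := by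
      rw [Finset.mul_sum, ← Finset.sum_add_distrib]
      refine Finset.sum_congr rfl fun m hm => ?_
      rw [← Finset.mul_sum, Finset.sum_add_distrib, mul_add]
      congr 1
      · rw [← Finset.mul_sum, ← mul_assoc, ← mul_assoc, mul_comm (w m) (w 0)]
        congr 1
        refine Finset.sum_congr rfl fun z hz => ?_
        rw [if_neg (h1ne m hm z hz).symm, norm_sub_rev]
      · rw [Finset.sum_comm, Finset.mul_sum]
        refine Finset.sum_congr rfl fun m' _ => ?_
        rw [← Finset.mul_sum, ← mul_assoc]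
    rw [e4]
    have h5 : 0 ≤ ∑ m ∈ Finset.Icc 1 k, ∑ m' ∈ Finset.Icc 1 k, w m * w m' *
          ∑ z' ∈ conjSet (α ^ m), ∑ z ∈ conjSet (α ^ m'),
              (if z' = z then 0 else Real.log ‖z' - z‖) :=
      Finset.sum_nonneg fun m _ => Finset.sum_nonneg fun m' _ =>
        mul_nonneg (mul_nonneg (hw m) (hw m')) (cross_nonneg (hα.pow m) (hα.pow m'))
    linarith
  have hX : ∑ i ∈ s, w i.1 = w 0 + ∑ m ∈ Finset.Icc 1 k, w m * (conjSet (α ^ m)).card := by
    rw [hsum (fun m _ => w m)]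
    congr 1
    refine Finset.sum_congr rfl fun m _ => ?_
    rw [Finset.sum_const, nsmul_eq_mul, mul_comm]
  have hX2 : ∑ i ∈ s, w i.1 ^ 2 = w 0 ^ 2 + ∑ m ∈ Finset.Icc 1 k, w m ^ 2 * (conjSet (α ^ m)).card := by
    rw [hsum (fun m _ => w m ^ 2)]
    congr 1
    refine Finset.sum_congr rfl fun m _ => ?_
    rw [Finset.sum_const, nsmul_eq_mul, mul_comm]
  have hΛ : ∑ i ∈ s, w i.1 * Real.log (max 1 ‖i.2‖) =
      ∑ m ∈ Finset.Icc 1 k, w m * ∑ z ∈ conjSet (α ^ m), Real.log (max 1 ‖z‖) := by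
    rw [hsum (fun m z => w m * Real.log (max 1 ‖z‖)), norm_one, max_self, Real.log_one, mul_zero,
      zero_add]
    refine Finset.sum_congr rfl fun m _ => ?_
    rw [Finset.mul_sum]
  rw [hX, hX2, hΛ] at hen
  have h6 : 0 ≤ t * ‖∑ i ∈ s, (w i.1 : ℂ) * refl i.2‖ ^ 2 := by positivity
  linarith

/-- **The inequality for the powers of `α`.** -/
theorem pot_ineq {α : K} (hα : IsIntegral ℤ α) (h0 : α ≠ 0)
    (hroot : ∀ n : ℕ, 0 < n → α ^ n ≠ 1) (k : ℕ) {A B : ℝ} (hA : 0 ≤ A)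
    (hB : ∀ m ∈ Finset.Icc 1 k, (finrank (IntermediateField.adjoin ℚ {α ^ m}) K : ℝ) ≤ B)
    {t : ℝ} (ht0 : 0 ≤ t) (ht1 : t < 1) :
    2 * A * (k * dist1 α) ≤ 2 * (A + k * finrank ℚ K) * (k ^ 2 * lam α) +
      (A + k * finrank ℚ K) ^ 2 * Real.log (2 / (1 + t)) +
      (A ^ 2 + k * (B * finrank ℚ K)) * Real.log (1 / (1 - t)) := by
  classical
  set w : ℕ → ℝ := fun m => if m = 0 then A else
    (finrank (IntermediateField.adjoin ℚ {α ^ m}) K : ℝ) with hw
  have hw0 : w 0 = A := by simp [hw]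
  have hwm : ∀ m ∈ Finset.Icc 1 k, w m = (finrank (IntermediateField.adjoin ℚ {α ^ m}) K : ℝ) := by
    intro m hm
    have : m ≠ 0 := Nat.one_le_iff_ne_zero.mp (Finset.mem_Icc.mp hm).1
    simp [hw, this]
  have hwn : ∀ m, 0 ≤ w m := by
    intro m
    by_cases h : m = 0
    · rw [h, hw0]; exact hA
    · simp [hw, h]
  have hcardw : ∀ m ∈ Finset.Icc 1 k, w m * (conjSet (α ^ m)).card = finrank ℚ K := by
    intro m hm
    have h1 := sum_mult (α ^ m) (fun _ => (1 : ℝ))
    rw [Finset.sum_const, Finset.sum_const, Finset.card_univ, AlgHom.card, nsmul_eq_mul,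
      nsmul_eq_mul, mul_one, mul_one] at h1
    rw [hwm m hm]
    exact h1.symm
  have hmain := energy_classes hα h0 hroot k w hwn ht0 ht1
  have hk : ∑ _m ∈ Finset.Icc 1 k, (finrank ℚ K : ℝ) = k * finrank ℚ K := by
    rw [Finset.sum_const, Nat.card_Icc, nsmul_eq_mul]; simp
  have e1 : ∑ m ∈ Finset.Icc 1 k, w m * (conjSet (α ^ m)).card = k * finrank ℚ K := by
    rw [Finset.sum_congr rfl hcardw, hk]
  have e2 : ∑ m ∈ Finset.Icc 1 k, w m ^ 2 * (conjSet (α ^ m)).card ≤ k * (B * finrank ℚ K) := by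
    have h1 : ∀ m ∈ Finset.Icc 1 k, w m ^ 2 * (conjSet (α ^ m)).card ≤ B * finrank ℚ K := by
      intro m hm
      rw [sq, mul_assoc, hcardw m hm]
      apply mul_le_mul_of_nonneg_right _ (Nat.cast_nonneg _)
      rw [hwm m hm]
      exact hB m hm
    refine (Finset.sum_le_sum h1).trans (le_of_eq ?_)
    rw [Finset.sum_const, Nat.card_Icc, nsmul_eq_mul]; simp
  have e3 : ∑ m ∈ Finset.Icc 1 k, w m * ∑ z ∈ conjSet (α ^ m), Real.log (max 1 ‖z‖) ≤
      k ^ 2 * lam α := by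
    have h1 : ∀ m ∈ Finset.Icc 1 k, w m * ∑ z ∈ conjSet (α ^ m), Real.log (max 1 ‖z‖) ≤
        k * lam α := by
      intro m hm
      rw [hwm m hm, ← sum_mult]
      have h2 := lam_pow α m
      unfold lam at h2
      rw [h2]
      have h3 : (m:ℝ) ≤ k := by exact_mod_cast (Finset.mem_Icc.mp hm).2
      exact mul_le_mul_of_nonneg_right h3 (lam_nonneg α)
    refine (Finset.sum_le_sum h1).trans (le_of_eq ?_)
    rw [Finset.sum_const, Nat.card_Icc, nsmul_eq_mul]
    simp only [Nat.add_sub_cancel]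
    ring
  have e4 : k * dist1 α ≤ ∑ m ∈ Finset.Icc 1 k, w m * ∑ z ∈ conjSet (α ^ m), Real.log ‖1 - z‖ := by
    calc (k:ℝ) * dist1 α = ∑ m ∈ Finset.Icc 1 k, dist1 α := by
          rw [Finset.sum_const, Nat.card_Icc, nsmul_eq_mul]; simp
      _ ≤ ∑ m ∈ Finset.Icc 1 k, w m * ∑ z ∈ conjSet (α ^ m), Real.log ‖1 - z‖ := by
          refine Finset.sum_le_sum fun m hm => ?_
          rw [hwm m hm, ← sum_mult (α ^ m) (fun z => Real.log ‖1 - z‖)]
          exact dist1_pow_le hα (hroot m (Finset.mem_Icc.mp hm).1)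
  rw [e1, hw0] at hmain
  have hL1 : 0 ≤ Real.log (1 / (1 - t)) := by
    apply Real.log_nonneg
    rw [le_div_iff₀ (by linarith)]; linarith
  have h1 := mul_le_mul_of_nonneg_left e4 (by positivity : 0 ≤ 2 * A)
  have h2 := mul_le_mul_of_nonneg_left e3
    (by positivity : 0 ≤ 2 * (A + k * (finrank ℚ K : ℝ)))
  have h3 := mul_le_mul_of_nonneg_right (add_le_add_right e2 (A ^ 2)) hL1
  linarith

end

end Pool.Agent.D0H86.MG
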