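import Pool.Agent.Y399.MG.H
import Pool.Agent.D0H86.MG.Pot
import Pool.Agent.D0H86.MG.Choice

/-!
# Eigenvalues of integral matrices which are unipotent modulo an ideal
-/

set_option autoImplicit false

open Finset Polynomial Module NumberField IntermediateField

namespace Pool.Agent.D0H86.MG

open Pool.Agent.H388SL Pool.Agent.H225R3.Marg Pool.Agent.TH869.LS

/-- the lower bound, as a function of the degree `d`, the number `s` of noncompact embeddings and the
logarithm `l` of the norm of the level -/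
noncomputable def bnd (d s : ℕ) (l : ℝ) : ℝ :=
  min (l / s) (min (l ^ 2 / (d * s * Real.log (2 * (d * s) * (1 + 1 / l))))
      (l ^ 4 / ((d * s) ^ 2 * Real.log (2 * (d * s) * (1 + 1 / l)) ^ 3)))

section

variable {k L : Type} [Field k] [NumberField k] [Field L] [NumberField L] [Algebra k L]

lemma lam_ringHom (x : L) : lam x = ∑ σ : L →+* ℂ, Real.log (max 1 ‖σ x‖) := by
  unfold lam
  exact (Fintype.sum_equiv (RingHom.equivRatAlgHom L ℂ) _ _ fun σ => rfl).symm

lemma dist1_ringHom (x : L) : dist1 x = ∑ σ : L →+* ℂ, Real.log ‖1 - σ x‖ := by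
  unfold dist1
  exact (Fintype.sum_equiv (RingHom.equivRatAlgHom L ℂ) _ _ fun σ => rfl).symm

/-- the height of the eigenvalue -/
lemma lam_le (S : Finset (k →+* ℂ)) (x : L) (R : ℝ) (hR : 1 ≤ R)
    (hout : ∀ τ : L →+* ℂ, τ.comp (algebraMap k L) ∉ S → ‖τ x‖ ≤ 1)
    (hin : ∀ τ : L →+* ℂ, ‖τ x‖ ≤ R) :
    lam x ≤ (S.card * finrank k L : ℕ) * Real.log R := by
  classical
  rw [lam_ringHom]
  have h3 : ∀ τ : L →+* ℂ, Real.log (max 1 ‖τ x‖) ≤
      if τ.comp (algebraMap k L) ∈ S then Real.log R else 0 := by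
    intro τ
    split_ifs with h
    · exact Real.log_le_log (lt_of_lt_of_le one_pos (le_max_left _ _)) (max_le hR (hin τ))
    · rw [max_eq_left (hout τ h), Real.log_one]
  refine (Finset.sum_le_sum fun τ _ => h3 τ).trans ?_
  rw [← Finset.sum_filter, Finset.sum_const, card_over S, nsmul_eq_mul]

/-- the trivial bound for the norm of `1 - α` -/
lemma dist1_le (α : L) (h1 : α ≠ 1) : dist1 α ≤ finrank ℚ L * Real.log 2 + lam α := by
  have hc : (finrank ℚ L : ℝ) * Real.log 2 = ∑ _σ : L →ₐ[ℚ] ℂ, Real.log 2 := by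
    rw [Finset.sum_const, Finset.card_univ, AlgHom.card, nsmul_eq_mul]
  unfold dist1 lam
  rw [hc, ← Finset.sum_add_distrib]
  refine Finset.sum_le_sum fun σ _ => ?_
  have hne : 0 < ‖1 - σ α‖ := by
    rw [norm_pos_iff, sub_ne_zero]
    intro h
    exact h1 ((map_eq_one_iff σ σ.injective).mp h.symm)
  have hm : 0 < max 1 ‖σ α‖ := lt_of_lt_of_le one_pos (le_max_left _ _)
  rw [← Real.log_mul two_ne_zero hm.ne']
  apply Real.log_le_log hne
  have h2 := norm_sub_le (1 : ℂ) (σ α)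
  rw [norm_one] at h2
  have h3 := le_max_left 1 ‖σ α‖
  have h4 := le_max_right 1 ‖σ α‖
  linarith

/-- **The lower bound for the largest conjugate.** -/
theorem field_ineq (S : Finset (k →+* ℂ)) (s : ℕ) (hs : S.card ≤ s) (hs1 : 1 ≤ s) (x : L) (R : ℝ)
    (hx0 : x ≠ 0) (hxi : IsIntegral ℤ x) (hroot : ∀ m : ℕ, 0 < m → x ^ m ≠ 1) (hR : 1 ≤ R)
    (hout : ∀ τ : L →+* ℂ, τ.comp (algebraMap k L) ∉ S → ‖τ x‖ ≤ 1)
    (hin : ∀ τ : L →+* ℂ, ‖τ x‖ ≤ R) (e : ℕ) (he : 0 < e) (l : ℝ) (hl : 0 < l)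
    (hlow : finrank k L * l ≤ dist1 (x ^ e)) :
    bnd (finrank ℚ k) s l ≤ 216000 * (e * Real.log R) := by
  set ν : ℝ := (finrank k L : ℝ) with hν
  haveI : FiniteDimensional k L := Module.Finite.of_restrictScalars_finite ℚ k L
  have hν0' : 0 < finrank k L := finrank_pos
  have hν0 : 0 < ν := by rw [hν]; exact_mod_cast hν0'
  have hd0' : 0 < finrank ℚ k := finrank_pos
  have hd1 : (1 : ℝ) ≤ finrank ℚ k := by exact_mod_cast hd0'
  have hs1' : (1 : ℝ) ≤ s := by exact_mod_cast hs1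
  have hlogR : 0 ≤ Real.log R := Real.log_nonneg hR
  have hD : (finrank ℚ L : ℝ) = finrank ℚ k * ν := by
    rw [hν]
    exact_mod_cast (Module.finrank_mul_finrank ℚ k L).symm
  set α : L := x ^ e with hα
  have hα0 : α ≠ 0 := pow_ne_zero e hx0
  have hαi : IsIntegral ℤ α := hxi.pow e
  have hαr : ∀ m : ℕ, 0 < m → α ^ m ≠ 1 := by
    intro m hm
    rw [hα, ← pow_mul]
    exact hroot (e * m) (Nat.mul_pos he hm)
  have hSs : (S.card : ℝ) ≤ s := by exact_mod_cast hs
  have hlam : lam α ≤ s * ν * (e * Real.log R) := by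
    rw [hα, lam_pow]
    have h1 := lam_le S x R hR hout hin
    push_cast at h1
    have h2 : (S.card : ℝ) * finrank k L * Real.log R ≤ s * ν * Real.log R :=
      mul_le_mul_of_nonneg_right (mul_le_mul_of_nonneg_right hSs hν0.le) hlogR
    have h3 := mul_le_mul_of_nonneg_left (h1.trans h2) (Nat.cast_nonneg (α := ℝ) e)
    linarith
  have hg0 : 0 ≤ (e : ℝ) * Real.log R := mul_nonneg (Nat.cast_nonneg _) hlogR
  unfold bnd
  refine choice hd1 hs1' hl hg0 ?_ ?_
  · have h1 := dist1_le α (by simpa using hαr 1 one_pos)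
    rw [hD] at h1
    have h2 : ν * l ≤ ν * (finrank ℚ k * Real.log 2 + s * (e * Real.log R)) := by
      have : ν * (finrank ℚ k * Real.log 2 + s * (e * Real.log R)) =
        finrank ℚ k * ν * Real.log 2 + s * ν * (e * Real.log R) := by ring
      rw [this]
      linarith
    exact le_of_mul_le_mul_left h2 hν0
  · intro m _ a t ha ht0 ht1
    have hB : ∀ j ∈ Finset.Icc 1 m, (finrank (IntermediateField.adjoin ℚ {α ^ j}) L : ℝ) ≤
        s * ν := by
      intro j hj
      have hj1 : 0 < e * j := Nat.mul_pos he (Finset.mem_Icc.mp hj).1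
      have h1 := Pool.Agent.Y399.MG.finrank_pow_le S x hx0 hxi hroot hout (e * j) hj1
      rw [hα, ← pow_mul]
      have h2 : (finrank ℚ⟮x ^ (e * j)⟯ L : ℝ) ≤ S.card * finrank k L := by exact_mod_cast h1
      exact h2.trans (mul_le_mul_of_nonneg_right hSs hν0.le)
    have hmain := pot_ineq hαi hα0 hαr m (mul_nonneg ha hν0.le) hB ht0 ht1
    rw [hD] at hmain
    have hm0 : (0 : ℝ) ≤ m := Nat.cast_nonneg m
    have hd0 : (0 : ℝ) ≤ finrank ℚ k := by linarith
    have h1 : 2 * (a * ν) * (m * (ν * l)) ≤ 2 * (a * ν) * (m * dist1 α) :=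
      mul_le_mul_of_nonneg_left (mul_le_mul_of_nonneg_left hlow hm0) (by positivity)
    have h2 : 2 * (a * ν + m * (finrank ℚ k * ν)) * ((m : ℝ) ^ 2 * lam α) ≤
        2 * (a * ν + m * (finrank ℚ k * ν)) * ((m : ℝ) ^ 2 * (s * ν * (e * Real.log R))) :=
      mul_le_mul_of_nonneg_left (mul_le_mul_of_nonneg_left hlam (by positivity)) (by positivity)
    have h3 : ν ^ 2 * (2 * a * (m * l)) ≤ ν ^ 2 *
        (2 * (a + m * finrank ℚ k) * (m ^ 2 * (s * (e * Real.log R))) +
          (a + m * finrank ℚ k) ^ 2 * Real.log (2 / (1 + t)) +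
          (a ^ 2 + m * (s * finrank ℚ k)) * Real.log (1 / (1 - t))) := by
      have e1 : ν ^ 2 * (2 * a * (m * l)) = 2 * (a * ν) * (m * (ν * l)) := by ring
      have e2 : ν ^ 2 *
        (2 * (a + m * finrank ℚ k) * (m ^ 2 * (s * (e * Real.log R))) +
          (a + m * finrank ℚ k) ^ 2 * Real.log (2 / (1 + t)) +
          (a ^ 2 + m * (s * finrank ℚ k)) * Real.log (1 / (1 - t))) =
          2 * (a * ν + m * (finrank ℚ k * ν)) * ((m : ℝ) ^ 2 * (s * ν * (e * Real.log R))) +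
          (a * ν + m * (finrank ℚ k * ν)) ^ 2 * Real.log (2 / (1 + t)) +
          ((a * ν) ^ 2 + m * (s * ν * (finrank ℚ k * ν))) * Real.log (1 / (1 - t)) := by ring
      rw [e1, e2]
      linarith
    exact le_of_mul_le_mul_left h3 (by positivity)

/-- **The norm of `1 - x ^ e` for an eigenvalue `x` of a matrix unipotent modulo an ideal.** -/
theorem dist1_lower {n : ℕ} (I : Ideal (𝓞 k)) (hI : I ≠ ⊥) (A : Matrix (Fin n) (Fin n) (𝓞 k))
    (e N : ℕ) (hN : 0 < N) (hcong : ∀ i j, ((A ^ e - 1) ^ N) i j ∈ I) (x : L)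
    (hx0 : eval₂ ((algebraMap k L).comp (algebraMap (𝓞 k) k)) x A.charpoly = 0)
    (hxint : IsIntegral ℤ x) (hxe : x ^ e ≠ 1) :
    finrank k L * (Real.log (Ideal.absNorm I) / N) ≤ dist1 (x ^ e) := by
  classical
  set g : 𝓞 k →+* L := (algebraMap k L).comp (algebraMap (𝓞 k) k) with hg
  have hn : 0 < n := by
    rcases Nat.eq_zero_or_pos n with h0 | h0
    · exfalso
      subst h0
      have : A.charpoly = 1 := by
        rw [Matrix.charpoly, Matrix.det_isEmpty]
      rw [this] at hx0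
      simp at hx0
    · exact h0
  have hspec : x ∈ spectrum L (g.mapMatrix A) := by
    rw [Matrix.mem_spectrum_iff_isRoot_charpoly]
    have : (g.mapMatrix A).charpoly = A.charpoly.map g := by rw [← Matrix.charpoly_map]; rfl
    rw [this, IsRoot, eval_map]
    exact hx0
  set B : Matrix (Fin n) (Fin n) (𝓞 k) := (A ^ e - 1) ^ N with hB
  have hyB : eval₂ g ((x ^ e - 1) ^ N) B.charpoly = 0 := by
    have h1 : g.mapMatrix B = aeval (g.mapMatrix A) ((X ^ e - 1) ^ N : L[X]) := by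
      rw [hB, map_pow, map_sub, map_pow, map_one]
      simp
    have h2 := spectrum.subset_polynomial_aeval (g.mapMatrix A)
      ((X ^ e - 1) ^ N : L[X]) ⟨x, hspec, rfl⟩
    rw [← h1, Matrix.mem_spectrum_iff_isRoot_charpoly] at h2
    have h3 : (g.mapMatrix B).charpoly = B.charpoly.map g := by
      rw [← Matrix.charpoly_map]; rfl
    rw [h3, IsRoot, eval_map] at h2
    simpa using h2
  let a : 𝓞 L := ⟨x, hxint⟩
  set b : 𝓞 L := a ^ e - 1 with hb
  have hbx : ((b : 𝓞 L) : L) = x ^ e - 1 := by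
    rw [hb]
    rfl
  have hb0 : b ≠ 0 := by
    intro h
    apply hxe
    rw [← sub_eq_zero, ← hbx, h]
    rfl
  have hyx : ((b ^ N : 𝓞 L) : L) = (x ^ e - 1) ^ N := by
    rw [← hbx]
    rfl
  have hyI : b ^ N ∈ I.map (algebraMap (𝓞 k) (𝓞 L)) := by
    refine mem_map_of_root I B.charpoly B.charpoly_monic n
      (by rw [Matrix.charpoly_natDegree_eq_dim, Fintype.card_fin]) hn (fun i => ?_) (b ^ N) ?_
    · have := Matrix.coeff_charpoly_mem_ideal_pow hcong i
      rwa [Fintype.card_fin] at this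
    · apply FaithfulSMul.algebraMap_injective (𝓞 L) L
      rw [map_zero, ← hyB, aeval_def, hom_eval₂, ← hyx]
      rfl
  have hlow := norm_lower I (b ^ N) (pow_ne_zero N hb0) hyI
  rw [map_pow, Int.natAbs_pow] at hlow
  have hI1 : 0 < Ideal.absNorm I :=
    Nat.pos_of_ne_zero fun h => hI (Ideal.absNorm_eq_zero_iff.mp h)
  have hI1' : (0 : ℝ) < Ideal.absNorm I := by exact_mod_cast hI1
  have h1 : (Ideal.absNorm I : ℝ) ^ finrank k L ≤ ((Algebra.norm ℤ b).natAbs : ℝ) ^ N := by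
    exact_mod_cast hlow
  have h2 := Real.log_le_log (by positivity) h1
  rw [Real.log_pow, Real.log_pow, norm_int_eq] at h2
  have h3 : Real.log (∏ σ : L →+* ℂ, ‖emb σ b‖) = dist1 (x ^ e) := by
    rw [dist1_ringHom]
    have h4 : ∀ σ : L →+* ℂ, ‖emb σ b‖ = ‖1 - σ (x ^ e)‖ := by
      intro σ
      have h5 : emb σ b = σ (x ^ e) - 1 := by
        have h6 : emb σ b = σ ((b : 𝓞 L) : L) := rfl
        rw [h6, hbx, map_sub, map_one]
      rw [h5, norm_sub_rev]
    rw [Real.log_prod]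
    · exact Finset.sum_congr rfl fun σ _ => by rw [h4]
    · intro σ _
      rw [h4, norm_ne_zero_iff, sub_ne_zero]
      intro h
      exact hxe ((map_eq_one_iff σ σ.injective).mp h.symm)
  rw [h3] at h2
  have hN' : (0 : ℝ) < N := by exact_mod_cast hN
  rw [← mul_div_assoc, div_le_iff₀ hN']
  linarith

end

/-- **From eigenvalues to matrices**, keeping the equation of the eigenvalue. -/
theorem gap_of' (k : Type) [Field k] [NumberField k] (n : ℕ) (S : Finset (k →+* ℂ))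
    (A : Matrix (Fin n) (Fin n) (𝓞 k)) (P : ℝ → Prop)
    (hP : ∀ (L : Type) [Field L] [NumberField L] [Algebra k L] (x : L) (R : ℝ), x ≠ 0 →
      IsIntegral ℤ x → (∀ m : ℕ, 0 < m → x ^ m ≠ 1) → 1 ≤ R →
      (∀ τ : L →+* ℂ, τ.comp (algebraMap k L) ∉ S → ‖τ x‖ ≤ 1) → (∀ τ : L →+* ℂ, ‖τ x‖ ≤ R) →
      eval₂ ((algebraMap k L).comp (algebraMap (𝓞 k) k)) x A.charpoly = 0 → P R)
    (hA : IsUnit A)
    (hout : ∀ σ : k →+* ℂ, σ ∉ S → ∀ l : ℂ, ((emb σ).mapMatrix A).charpoly.IsRoot l → ‖l‖ ≤ 1)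
    (hnil : ∀ N : ℕ, 0 < N → ¬ IsNilpotent (A ^ N - 1)) :
    ∃ σ ∈ S, ∃ l : ℂ, ((emb σ).mapMatrix A).charpoly.IsRoot l ∧ 1 < ‖l‖ ∧ P ‖l‖ := by
  classical
  -- a root which is not a root of unity
  set f : 𝓞 k →+* AlgebraicClosure k :=
    (algebraMap k (AlgebraicClosure k)).comp (algebraMap (𝓞 k) k) with hf
  have hfinj : Function.Injective f :=
    (algebraMap k (AlgebraicClosure k)).injective.comp
      (FaithfulSMul.algebraMap_injective (𝓞 k) k)
  obtain ⟨l, hl, hlN⟩ : ∃ l, (A.charpoly.map f).IsRoot l ∧ ∀ N : ℕ, 0 < N → l ^ N ≠ 1 := by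
    by_contra hcon
    push Not at hcon
    obtain ⟨N, hN, h⟩ := nilp_of_roots f hfinj A hcon
    exact hnil N hN h
  have hspec : l ∈ spectrum (AlgebraicClosure k) (f.mapMatrix A) := by
    rw [Matrix.mem_spectrum_iff_isRoot_charpoly]
    have : (f.mapMatrix A).charpoly = A.charpoly.map f := by rw [← Matrix.charpoly_map]; rfl
    rw [this]
    exact hl
  have hl0 : l ≠ 0 := by
    rintro rfl
    exact (spectrum.zero_notMem_iff _).mpr (hA.map f.mapMatrix) hspec
  -- the field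
  have hlint : IsIntegral k l := Algebra.IsIntegral.isIntegral l
  let L := IntermediateField.adjoin k {l}
  haveI : FiniteDimensional k L := IntermediateField.adjoin.finiteDimensional hlint
  haveI : CharZero L := charZero_of_injective_algebraMap (algebraMap k L).injective
  haveI : NumberField L := NumberField.of_module_finite k L
  let x : L := ⟨l, IntermediateField.mem_adjoin_simple_self k l⟩
  have hxl : algebraMap L (AlgebraicClosure k) x = l := rfl
  set g : 𝓞 k →+* L := (algebraMap k L).comp (algebraMap (𝓞 k) k) with hg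
  have hgf : (algebraMap L (AlgebraicClosure k)).comp g = f := by
    rw [hg, hf, ← RingHom.comp_assoc]
    rfl
  have hx0 : eval₂ g x A.charpoly = 0 := by
    apply (algebraMap L (AlgebraicClosure k)).injective
    rw [map_zero, hom_eval₂, hgf, hxl]
    rw [IsRoot, eval_map] at hl
    exact hl
  have hxint : IsIntegral ℤ x := by
    have h1 : IsIntegral (𝓞 k) x := by
      refine ⟨A.charpoly, A.charpoly_monic, ?_⟩
      have : algebraMap (𝓞 k) L = g := rfl
      rw [this]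
      exact hx0
    haveI : IsScalarTower ℤ (𝓞 k) L := IsScalarTower.of_algebraMap_eq' (RingHom.ext_int _ _)
    exact isIntegral_trans x h1
  have hxne : x ≠ 0 := by
    intro h
    apply hl0
    rw [← hxl, h, map_zero]
  have hxroot : ∀ N : ℕ, 0 < N → x ^ N ≠ 1 := by
    intro N hN h
    apply hlN N hN
    rw [← hxl, ← map_pow, h, map_one]
  -- norms of the conjugates
  have hτroot : ∀ τ : L →+* ℂ,
      ((emb (τ.comp (algebraMap k L))).mapMatrix A).charpoly.IsRoot (τ x) := by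
    intro τ
    have h1 : ((emb (τ.comp (algebraMap k L))).mapMatrix A).charpoly =
        A.charpoly.map (emb (τ.comp (algebraMap k L))) := by rw [← Matrix.charpoly_map]; rfl
    rw [h1, IsRoot, eval_map]
    have h2 : emb (τ.comp (algebraMap k L)) = τ.comp g := rfl
    rw [h2, ← hom_eval₂, hx0, map_zero]
  have hτout : ∀ τ : L →+* ℂ, τ.comp (algebraMap k L) ∉ S → ‖τ x‖ ≤ 1 :=
    fun τ hτ => hout _ hτ _ (hτroot τ)
  obtain ⟨τ1, hτ1⟩ : ∃ τ1 : L →+* ℂ, 1 < ‖τ1 x‖ := by
    by_contra hcon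
    push Not at hcon
    obtain ⟨N, hN, h⟩ := NumberField.Embeddings.pow_eq_one_of_norm_le_one L ℂ hxne hxint hcon
    exact hxroot N hN h
  obtain ⟨τ0, -, hmax⟩ := Finset.exists_max_image (univ : Finset (L →+* ℂ)) (fun τ => ‖τ x‖)
    ⟨τ1, Finset.mem_univ _⟩
  have hτ0 : 1 < ‖τ0 x‖ := hτ1.trans_le (hmax τ1 (Finset.mem_univ _))
  have hmem : τ0.comp (algebraMap k L) ∈ S := by
    by_contra h
    exact absurd hτ0 (not_lt.mpr (hτout τ0 h))
  refine ⟨_, hmem, τ0 x, hτroot τ0, hτ0, ?_⟩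
  exact hP L x ‖τ0 x‖ hxne hxint hxroot hτ0.le hτout (fun τ => hmax τ (Finset.mem_univ _)) hx0

/-- **The eigenvalue bound for a matrix which is unipotent modulo an ideal.** -/
theorem gap_uni (k : Type) [Field k] [NumberField k] (n s : ℕ) (S : Finset (k →+* ℂ))
    (A : Matrix (Fin n) (Fin n) (𝓞 k)) (hs : S.card ≤ s) (I : Ideal (𝓞 k)) (e N : ℕ) (he : 0 < e)
    (hN : 0 < N) (hcong : ∀ i j, ((A ^ e - 1) ^ N) i j ∈ I)
    (hI : 0 < Real.log (Ideal.absNorm I) / N) (hA : IsUnit A)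
    (hout : ∀ σ : k →+* ℂ, σ ∉ S → ∀ l : ℂ, ((emb σ).mapMatrix A).charpoly.IsRoot l → ‖l‖ ≤ 1)
    (hnil : ∀ N : ℕ, 0 < N → ¬ IsNilpotent (A ^ N - 1)) :
    ∃ σ ∈ S, ∃ l : ℂ, ((emb σ).mapMatrix A).charpoly.IsRoot l ∧ 1 < ‖l‖ ∧
      bnd (finrank ℚ k) s (Real.log (Ideal.absNorm I) / N) ≤ 216000 * (e * Real.log ‖l‖) := by
  have hI0 : I ≠ ⊥ := by
    rintro rfl
    simp at hI
  rcases Nat.eq_zero_or_pos s with h0 | h0
  · have hSe : S = ∅ := by
      rw [← Finset.card_eq_zero]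
      omega
    obtain ⟨σ, hσ, -⟩ := gap_of' k n S A (fun _ => True)
      (fun L _ _ _ x R _ _ _ _ _ _ _ => trivial) hA hout hnil
    rw [hSe] at hσ
    simp at hσ
  · refine gap_of' k n S A (fun R => bnd (finrank ℚ k) s (Real.log (Ideal.absNorm I) / N) ≤
      216000 * (e * Real.log R)) ?_ hA hout hnil
    intro L _ _ _ x R hx0 hxi hroot hR hout' hin hx
    exact field_ineq S s hs h0 x R hx0 hxi hroot hR hout' hin e he _ hI
      (dist1_lower I hI0 A e N hN hcong x hx hxi (hroot e he))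

end Pool.Agent.D0H86.MG
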