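import Pool.Agent.D0H86.MG.Fin

/-!
# Uniform lower bounds
-/

set_option autoImplicit false

open Polynomial Module NumberField

namespace Pool.Agent.D0H86.MG

open Pool.Agent.H225R3.Marg

/-- the lower bound for large levels -/
lemma bnd_lower (C : ℝ) (s : ℕ) : ∃ μ : ℝ, 0 < μ ∧ ∀ (d e : ℕ) (l : ℝ), 1 ≤ d → 1 ≤ s → 0 < e →
    0 < l → (e : ℝ) ≤ C * l → e * (d * Real.log (2 * d)) ≤ C * l ^ 2 →
    e * (d ^ 2 * Real.log (2 * d) ^ 3) ≤ C * l ^ 4 → μ * e ≤ bnd d s l := by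
  by_cases hCs : 0 < C ∧ 1 ≤ s
  swap
  · refine ⟨1, one_pos, fun d e l _ hs he hl h _ _ => ?_⟩
    exfalso
    apply hCs
    refine ⟨?_, hs⟩
    have he' : (0 : ℝ) < e := by exact_mod_cast he
    by_contra hC
    push Not at hC
    nlinarith
  obtain ⟨hC, hs⟩ := hCs
  have hs1 : (1 : ℝ) ≤ s := by exact_mod_cast hs
  have hs0 : (0 : ℝ) < s := by linarith
  have hlog2 : 0 < Real.log 2 := Real.log_pos (by norm_num)
  have hsC : 1 ≤ s * (1 + C) := by nlinarith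
  set κ : ℝ := 1 + Real.log (s * (1 + C)) / Real.log 2 with hκ
  have hκ1 : 1 ≤ κ := by
    have : 0 ≤ Real.log (s * (1 + C)) / Real.log 2 := div_nonneg (Real.log_nonneg hsC) hlog2.le
    linarith
  have hκ0 : 0 < κ := by linarith
  refine ⟨min (1 / (C * s)) (min (1 / (C * s * κ)) (1 / (C * s ^ 2 * κ ^ 3))),
    by positivity, ?_⟩
  intro d e l hd _ he hl h1 h2 h3
  have he1 : (1 : ℝ) ≤ e := by exact_mod_cast he
  have hd1 : (1 : ℝ) ≤ d := by exact_mod_cast hd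
  have hd0 : (0 : ℝ) < d := by linarith
  set T : ℝ := Real.log (2 * d) with hT
  have hT2 : Real.log 2 ≤ T := Real.log_le_log two_pos (by linarith)
  have hT0 : 0 < T := by linarith
  have hli : 1 / l ≤ C := by
    rw [div_le_iff₀ hl]; linarith
  have hli0 : 0 < 1 / l := by positivity
  set L : ℝ := Real.log (2 * (d * s) * (1 + 1 / l)) with hL
  have hds : 1 ≤ (d : ℝ) * s := by nlinarith
  have hL0 : 0 < L := by
    apply Real.log_pos
    have : 2 * ((d : ℝ) * s) * 1 ≤ 2 * (d * s) * (1 + 1 / l) :=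
      mul_le_mul_of_nonneg_left (by linarith) (by positivity)
    linarith
  have hLκ : L ≤ κ * T := by
    have h4 : L ≤ Real.log (2 * d * (s * (1 + C))) := by
      apply Real.log_le_log (by positivity)
      have : 2 * ((d : ℝ) * s) * (1 + 1 / l) ≤ 2 * (d * s) * (1 + C) :=
        mul_le_mul_of_nonneg_left (by linarith) (by positivity)
      linarith
    rw [Real.log_mul (by positivity) (by positivity)] at h4
    have h5 : Real.log (s * (1 + C)) ≤ Real.log (s * (1 + C)) / Real.log 2 * T := by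
      rw [div_mul_eq_mul_div, le_div_iff₀ hlog2]
      exact mul_le_mul_of_nonneg_left hT2 (Real.log_nonneg hsC)
    calc L ≤ T + Real.log (s * (1 + C)) := h4
      _ ≤ T + Real.log (s * (1 + C)) / Real.log 2 * T := by linarith
      _ = κ * T := by rw [hκ]; ring
  set μ : ℝ := min (1 / (C * s)) (min (1 / (C * s * κ)) (1 / (C * s ^ 2 * κ ^ 3))) with hμ
  have m1 : μ ≤ 1 / (C * s) := min_le_left _ _
  have m2 : μ ≤ 1 / (C * s * κ) := (min_le_right _ _).trans (min_le_left _ _)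
  have m3 : μ ≤ 1 / (C * s ^ 2 * κ ^ 3) := (min_le_right _ _).trans (min_le_right _ _)
  unfold bnd
  refine le_min ?_ (le_min ?_ ?_)
  · rw [le_div_iff₀ hs0]
    have h4 : μ * e * s ≤ 1 / (C * s) * e * s := by
      apply mul_le_mul_of_nonneg_right _ hs0.le
      exact mul_le_mul_of_nonneg_right m1 (by positivity)
    have h5 : 1 / (C * s) * e * s = e / C := by field_simp
    have h6 : e / C ≤ l := by rw [div_le_iff₀ hC]; linarith
    linarith
  · rw [le_div_iff₀ (by positivity)]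
    have h4 : μ * e * (d * s * L) ≤ 1 / (C * s * κ) * e * (d * s * (κ * T)) := by
      apply mul_le_mul (mul_le_mul_of_nonneg_right m2 (by positivity))
        (mul_le_mul_of_nonneg_left hLκ (by positivity)) (by positivity) (by positivity)
    have h5 : 1 / (C * s * κ) * e * (d * s * (κ * T)) = e * (d * T) / C := by field_simp
    have h6 : e * (d * T) / C ≤ l ^ 2 := by rw [div_le_iff₀ hC]; linarith
    linarith
  · rw [le_div_iff₀ (by positivity)]
    have h7 : L ^ 3 ≤ (κ * T) ^ 3 := pow_le_pow_left₀ hL0.le hLκ 3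
    have h4 : μ * e * ((d * s) ^ 2 * L ^ 3) ≤
        1 / (C * s ^ 2 * κ ^ 3) * e * ((d * s) ^ 2 * (κ * T) ^ 3) := by
      apply mul_le_mul (mul_le_mul_of_nonneg_right m3 (by positivity))
        (mul_le_mul_of_nonneg_left h7 (by positivity)) (by positivity) (by positivity)
    have h5 : 1 / (C * s ^ 2 * κ ^ 3) * e * ((d * s) ^ 2 * (κ * T) ^ 3) =
        e * (d ^ 2 * T ^ 3) / C := by field_simp
    have h6 : e * (d ^ 2 * T ^ 3) / C ≤ l ^ 4 := by rw [div_le_iff₀ hC]; linarith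
    linarith

/-- scaling of the level by the size of the matrices -/
lemma scale {C l n : ℝ} (hC : 0 < C) (hl : 0 < l) (hn : 1 ≤ n) :
    C * l ≤ C * n ^ 4 * (l / n) ∧ C * l ^ 2 ≤ C * n ^ 4 * (l / n) ^ 2 ∧
      C * l ^ 4 ≤ C * n ^ 4 * (l / n) ^ 4 := by
  have hn0 : 0 < n := by linarith
  have h3 : (1 : ℝ) ≤ n ^ 3 := one_le_pow₀ hn
  have h2 : (1 : ℝ) ≤ n ^ 2 := one_le_pow₀ hn
  refine ⟨?_, ?_, ?_⟩
  · have e1 : C * n ^ 4 * (l / n) = C * l * n ^ 3 := by field_simp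
    rw [e1]
    have : 0 < C * l := by positivity
    nlinarith
  · have e1 : C * n ^ 4 * (l / n) ^ 2 = C * l ^ 2 * n ^ 2 := by field_simp
    rw [e1]
    have : 0 < C * l ^ 2 := by positivity
    nlinarith
  · have e1 : C * n ^ 4 * (l / n) ^ 4 = C * l ^ 4 := by field_simp
    rw [e1]

/-- the condition for a fixed exponent -/
lemma large_of (c : ℝ) (e : ℕ) (hc : 0 < c) : ∃ C : ℝ, ∀ (d : ℕ) (l : ℝ), 0 < d →
    c * (Real.sqrt d * Real.log (2 * d) ^ (3 / 4 : ℝ)) ≤ l →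
    (e : ℝ) ≤ C * l ∧ e * (d * Real.log (2 * d)) ≤ C * l ^ 2 ∧
    e * ((d : ℝ) ^ 2 * Real.log (2 * d) ^ 3) ≤ C * l ^ 4 := by
  have hlog2 : 0 < Real.log 2 := Real.log_pos (by norm_num)
  set c1 : ℝ := c * Real.log 2 ^ (3 / 4 : ℝ) with hc1
  set c2 : ℝ := c ^ 2 * Real.log 2 ^ (1 / 2 : ℝ) with hc2
  have hc10 : 0 < c1 := by positivity
  have hc20 : 0 < c2 := by positivity
  refine ⟨max (e / c1) (max (e / c2) (e / c ^ 4)), ?_⟩
  intro d l hd hl
  have hd1 : (1 : ℝ) ≤ d := by exact_mod_cast hd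
  have hd0 : (0 : ℝ) < d := by linarith
  set T : ℝ := Real.log (2 * d) with hT
  have hT2 : Real.log 2 ≤ T := Real.log_le_log two_pos (by linarith)
  have hT0 : 0 < T := by linarith
  have hsd : 1 ≤ Real.sqrt d := by
    rw [Real.one_le_sqrt]; exact hd1
  have hsq : Real.sqrt d ^ 2 = d := Real.sq_sqrt hd0.le
  set m : ℝ := c * (Real.sqrt d * T ^ (3 / 4 : ℝ)) with hm
  have hm0 : 0 < m := by positivity
  have hl0 : 0 < l := by linarith
  have b1 : c1 ≤ l := by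
    refine le_trans ?_ hl
    rw [hc1, hm]
    apply mul_le_mul_of_nonneg_left _ hc.le
    calc Real.log 2 ^ (3 / 4 : ℝ) ≤ T ^ (3 / 4 : ℝ) :=
          Real.rpow_le_rpow hlog2.le hT2 (by norm_num)
      _ = 1 * T ^ (3 / 4 : ℝ) := (one_mul _).symm
      _ ≤ Real.sqrt d * T ^ (3 / 4 : ℝ) := mul_le_mul_of_nonneg_right hsd (by positivity)
  have e4 : (T ^ (3 / 4 : ℝ)) ^ 4 = T ^ 3 := by
    rw [← Real.rpow_natCast (T ^ (3 / 4 : ℝ)) 4, ← Real.rpow_mul hT0.le,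
      ← Real.rpow_natCast T 3]
    congr 1
    norm_num
  have e2 : (T ^ (3 / 4 : ℝ)) ^ 2 = T ^ (1 / 2 : ℝ) * T := by
    rw [← Real.rpow_natCast (T ^ (3 / 4 : ℝ)) 2, ← Real.rpow_mul hT0.le,
      ← Real.rpow_add_one hT0.ne']
    congr 1
    norm_num
  have b2 : c2 * (d * T) ≤ l ^ 2 := by
    refine le_trans ?_ (pow_le_pow_left₀ hm0.le hl 2)
    have e5 : m ^ 2 = c ^ 2 * T ^ (1 / 2 : ℝ) * (d * T) := by
      calc m ^ 2 = c ^ 2 * (Real.sqrt d ^ 2 * (T ^ (3 / 4 : ℝ)) ^ 2) := by rw [hm]; ring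
        _ = _ := by rw [hsq, e2]; ring
    rw [e5, hc2]
    apply mul_le_mul_of_nonneg_right _ (by positivity)
    exact mul_le_mul_of_nonneg_left (Real.rpow_le_rpow hlog2.le hT2 (by norm_num))
      (by positivity)
  have b4 : c ^ 4 * ((d : ℝ) ^ 2 * T ^ 3) ≤ l ^ 4 := by
    refine le_trans (le_of_eq ?_) (pow_le_pow_left₀ hm0.le hl 4)
    calc c ^ 4 * ((d : ℝ) ^ 2 * T ^ 3) =
        c ^ 4 * ((Real.sqrt d ^ 2) ^ 2 * (T ^ (3 / 4 : ℝ)) ^ 4) := by rw [hsq, e4]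
      _ = m ^ 4 := by rw [hm]; ring
  have he0 : (0 : ℝ) ≤ e := Nat.cast_nonneg e
  refine ⟨?_, ?_, ?_⟩
  · calc (e : ℝ) = e / c1 * c1 := by field_simp
      _ ≤ max (e / c1) (max (e / c2) (e / c ^ 4)) * l :=
        mul_le_mul (le_max_left _ _) b1 hc10.le (le_max_of_le_left (by positivity))
  · calc (e : ℝ) * (d * T) = e / c2 * (c2 * (d * T)) := by field_simp
      _ ≤ max (e / c1) (max (e / c2) (e / c ^ 4)) * l ^ 2 :=
        mul_le_mul ((le_max_left _ _).trans (le_max_right _ _)) b2 (by positivity)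
          (le_max_of_le_left (by positivity))
  · calc (e : ℝ) * ((d : ℝ) ^ 2 * T ^ 3) = e / c ^ 4 * (c ^ 4 * ((d : ℝ) ^ 2 * T ^ 3)) := by
          field_simp
      _ ≤ max (e / c1) (max (e / c2) (e / c ^ 4)) * l ^ 4 :=
        mul_le_mul ((le_max_right _ _).trans (le_max_right _ _)) b4 (by positivity)
          (le_max_of_le_left (by positivity))

/-- **The gap for large levels.** -/
theorem gap_large (C : ℝ) (s : ℕ) : ∃ ε : ℝ, 0 < ε ∧
    ∀ (k : Type) [Field k] [NumberField k] (n : ℕ) (S : Finset (k →+* ℂ))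
      (A : Matrix (Fin n) (Fin n) (𝓞 k)) (I : Ideal (𝓞 k)) (e N : ℕ), S.card ≤ s → 0 < e → 0 < N →
      (∀ i j, ((A ^ e - 1) ^ N) i j ∈ I) →
      (e : ℝ) ≤ C * (Real.log (Ideal.absNorm I) / N) →
      e * (finrank ℚ k * Real.log (2 * finrank ℚ k)) ≤ C * (Real.log (Ideal.absNorm I) / N) ^ 2 →
      e * ((finrank ℚ k : ℝ) ^ 2 * Real.log (2 * finrank ℚ k) ^ 3) ≤
        C * (Real.log (Ideal.absNorm I) / N) ^ 4 →
      IsUnit A →
      (∀ σ : k →+* ℂ, σ ∉ S → ∀ l : ℂ, ((emb σ).mapMatrix A).charpoly.IsRoot l → ‖l‖ ≤ 1) →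
      (∀ N : ℕ, 0 < N → ¬ IsNilpotent (A ^ N - 1)) →
      ∃ σ ∈ S, ∃ l : ℂ, ((emb σ).mapMatrix A).charpoly.IsRoot l ∧ ε ≤ ‖l - 1‖ := by
  obtain ⟨μ, hμ, hlow⟩ := bnd_lower C s
  obtain ⟨ε, hε, h⟩ := Pool.Agent.Y399.MG.exists_eps 216000 μ hμ
  refine ⟨ε, hε, ?_⟩
  intro k _ _ n S A I e N hs he hN hcong h1 h2 h3 hA hout hnil
  have he' : (0 : ℝ) < e := by exact_mod_cast he
  have hl0 : 0 ≤ Real.log (Ideal.absNorm I) / N :=
    div_nonneg (Real.log_natCast_nonneg _) (Nat.cast_nonneg _)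
  have hl : 0 < Real.log (Ideal.absNorm I) / N := by
    rcases hl0.eq_or_lt with h0 | h0
    · rw [← h0, mul_zero] at h1
      linarith
    · exact h0
  obtain ⟨σ, hσ, l, hl1, hl2, hl3⟩ := gap_uni k n s S A hs I e N he hN hcong hl hA hout hnil
  have hs1 : 1 ≤ s := (Finset.card_pos.mpr ⟨σ, hσ⟩).trans_le hs
  have hd : 1 ≤ finrank ℚ k := finrank_pos
  have h4 := (hlow (finrank ℚ k) e _ hd hs1 he hl h1 h2 h3).trans hl3
  refine ⟨σ, hσ, l, hl1, h l ?_ hl2⟩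
  have h5 : e * μ ≤ e * (216000 * Real.log ‖l‖) := by linarith
  have h6 := le_of_mul_le_mul_left h5 he'
  push_cast
  exact h6

end Pool.Agent.D0H86.MG
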